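import Mathlib
import Pool.Agent.Lib.MP_493311_pr.Extra

/-!
# Complete asymptotic expansion of the mean shortest cycle length of a random permutation

All definitions used in the statement `result` are given here; they are matched below with the
working definitions of the library files.
-/

open Finset PowerSeries MeasureTheory

namespace Pool.Agent.Results.MP_493311_pr.FullExpansion

/-! ## The mean shortest cycle length -/

/-- `a_j(σ)`: the number of cycles of `σ` of length `j`; fixed points are cycles of length `1`.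
(Mathlib's `Equiv.Perm.partition` is the multiset of all cycle lengths, fixed points included.) -/
def cycleCount {n : ℕ} (σ : Equiv.Perm (Fin n)) (j : ℕ) : ℕ := σ.partition.parts.count j

/-- `m(σ) = min {j ≥ 1 : a_j(σ) > 0}` -/
noncomputable def shortestCycle {n : ℕ} (σ : Equiv.Perm (Fin n)) : ℕ :=
  sInf {j : ℕ | 1 ≤ j ∧ 0 < cycleCount σ j}

/-- `E_n`: the mean of `m(σ)`, `σ` uniform among the `n!` permutations of `Fin n` -/
noncomputable def meanShortestCycle (n : ℕ) : ℝ :=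
  (∑ σ : Equiv.Perm (Fin n), (shortestCycle σ : ℝ)) / (n.factorial : ℝ)

/-! ## The constant term -/

/-- the exponential integral `E₁(x) = ∫_x^∞ e^{-t}/t dt` -/
noncomputable def expInt (x : ℝ) : ℝ := ∫ t in Set.Ioi x, Real.exp (-t) / t

/-- the harmonic number `H_j` -/
noncomputable def harm (j : ℕ) : ℝ := ∑ i ∈ range j, (1 : ℝ) / (i + 1)

/-- the `j`-th term `e^{-H_j} - e^{-γ} ln(1 + 1/j)` (shifted: `j + 1` in place of `j`) -/
noncomputable def termD (j : ℕ) : ℝ := Real.exp (-harm (j + 1)) -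
  Real.exp (-Real.eulerMascheroniConstant) * Real.log (1 + 1 / ((j : ℝ) + 1))

/-- the constant term
`C = γ e^{-γ} + 1 + ∑_{j ≥ 1} (e^{-H_j} - e^{-γ} ln(1 + 1/j))
   + ∫_0^1 (e^{E₁(x)} - 1 - e^{-γ}/x) dx + ∫_1^∞ (e^{E₁(x)} - 1) dx` -/
noncomputable def constTerm : ℝ := Real.eulerMascheroniConstant * Real.exp (-Real.eulerMascheroniConstant) + 1 + ∑' j : ℕ, termD j +
  (∫ x in (0 : ℝ)..1, (Real.exp (expInt x) - 1 - Real.exp (-Real.eulerMascheroniConstant) / x)) +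
  ∫ x in Set.Ioi (1 : ℝ), (Real.exp (expInt x) - 1)

/-! ## The coefficients of the powers of `1/n` -/

/-- `η_t = [x^t] exp (∑_{m ≥ 1} B_m x^m / m)`, i.e. `η_0 = 1` and
`(t+1) η_{t+1} = ∑_{i=0}^t B_{i+1} η_{t-i}` (`B_1 = -1/2`). Thus `e^{-H_j} ~ e^{-γ} ∑ η_t j^{-t-1}`. -/
noncomputable def eta : ℕ → ℝ
  | 0 => 1
  | t + 1 => (1 / ((t : ℝ) + 1)) * ∑ i : Fin (t + 1), ((bernoulli (i + 1) : ℚ) : ℝ) * eta (t - i)
termination_by t => t
decreasing_by omega

/-- the polynomial `binom(x, t)` -/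
noncomputable def binPoly (t : ℕ) : Polynomial ℝ :=
  Polynomial.C (1 / (t.factorial : ℝ)) * descPochhammer ℝ t

/-- the polynomials `π_m(x) = [w^m] exp (∑_{i=1}^x (1 - (1-w)^i)/i)`, i.e. `π_0 = 1` and
`(m+1) π_{m+1} = ∑_{t=0}^m (-1)^t binom(x,t+1) π_{m-t}` -/
noncomputable def piPoly : ℕ → Polynomial ℝ
  | 0 => 1
  | m + 1 => Polynomial.C (1 / ((m : ℝ) + 1)) *
      ∑ t : Fin (m + 1), (-1) ^ (t : ℕ) * binPoly (t + 1) * piPoly (m - t)
termination_by m => m
decreasing_by omega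

/-- `ρ_i = e^{-γ} ∑_s η_s [x^s] π_{i+1}(x)` (a rational multiple of `e^{-γ}`) -/
noncomputable def rho (i : ℕ) : ℝ :=
  Real.exp (-Real.eulerMascheroniConstant) * ∑ s ∈ range (i + 2), (piPoly (i + 1)).coeff s * eta s

/-- the formal power series `e^{-s}` -/
noncomputable def expS : ℂ⟦X⟧ := PowerSeries.mk fun r => (-1) ^ r / (r.factorial : ℂ)

/-- the root of unity `e^{2πit/a}` -/
noncomputable def root (a t : ℕ) : ℂ := Complex.exp (2 * Real.pi * Complex.I * t / a)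

/-- `β_ω(s) = ω e^{-s} / (1 - ω e^{-s})` as a formal power series in `s` (used for `ω ≠ 1`) -/
noncomputable def beta (ω : ℂ) : ℂ⟦X⟧ := (C ω * expS) * (1 - C ω * expS)⁻¹

/-- `∑_{m ≥ 0} β_ω^{(m)}(s) Y^{m+1}`, a power series in `Y` over the power series in `s` -/
noncomputable def betaY (ω : ℂ) : (ℂ⟦X⟧)⟦X⟧ :=
  PowerSeries.mk fun b => match b with
    | 0 => 0
    | m + 1 => (fun f : ℂ⟦X⟧ => d⁄dX ℂ f)^[m] (beta ω)

/-- `D_{k,a,ω} = [s^{k-1}] ∑_{b=a}^k (-as)^{b-1}/(b-1)! · (1/a!) [Y^b] (∑_m β_ω^{(m)}(s) Y^{m+1})^a` -/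
noncomputable def oscCoeff (k a : ℕ) (ω : ℂ) : ℂ := coeff (k - 1) (∑ b ∈ Icc a k,
  C ((-(a : ℂ)) ^ (b - 1) / ((b - 1).factorial : ℂ)) * X ^ (b - 1) *
    (C (1 / (a.factorial : ℂ)) * coeff b (betaY ω ^ a)))

/-- the coefficient `c_k(n)` of `n^{-k}`:
`c_k(n) = -e^{-γ} B_k/k + (-1)^{k-1} (k-1)! · Re ( ∑_{i<k} ρ_i [s^{k-1}] (1-e^{-s})^i
   + ∑_{a=2}^k ∑_{t=1}^{a-1} ω^{-n} D_{k,a,ω} )`, where `ω = e^{2πit/a}` -/
noncomputable def coef (k n : ℕ) : ℝ := -(Real.exp (-Real.eulerMascheroniConstant) * ((bernoulli k : ℚ) : ℝ) / k) +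
  (-1) ^ (k - 1) * ((k - 1).factorial : ℝ) *
    (∑ i ∈ range k, ((rho i : ℝ) : ℂ) * coeff (k - 1) ((1 - expS) ^ i) +
      ∑ a ∈ Icc 2 k, ∑ t ∈ Ico 1 a, (root a t)⁻¹ ^ n * oscCoeff k a (root a t)).re

/-! ## Matching with the library -/

lemma mean_eq : meanShortestCycle = Lib.MP_493311_pr.meanShortestCycle := rfl

lemma eta_eq (t : ℕ) : eta t = Lib.MP_493311_pr.eta t := by
  induction t using Nat.strong_induction_on with
  | _ t ih =>
    rcases t with _ | t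
    · rw [eta, Lib.MP_493311_pr.eta]
    · rw [eta, Lib.MP_493311_pr.eta]
      congr 1
      apply sum_congr rfl
      intro i _
      rw [ih (t - i) (by omega)]
      rfl

lemma piPoly_eq (m : ℕ) : piPoly m = Lib.MP_493311_pr.ppi m := by
  induction m using Nat.strong_induction_on with
  | _ m ih =>
    rcases m with _ | m
    · rw [piPoly, Lib.MP_493311_pr.ppi]
    · rw [piPoly, Lib.MP_493311_pr.ppi]
      congr 1
      apply sum_congr rfl
      intro i _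
      rw [ih (m - i) (by omega)]
      rfl

lemma rho_eq (i : ℕ) : rho i = Lib.MP_493311_pr.rho i := by
  unfold rho Lib.MP_493311_pr.rho
  rw [piPoly_eq]
  congr 1
  apply sum_congr rfl
  intro s _
  rw [eta_eq]

lemma const_eq : constTerm = Lib.MP_493311_pr.C0 := by
  unfold constTerm Lib.MP_493311_pr.C0 Lib.MP_493311_pr.CD Lib.MP_493311_pr.CU
  have : ∑' j : ℕ, termD j = ∑' j : ℕ, (Real.exp (-∑ i ∈ range (j + 1), (1 : ℝ) / (i + 1)) -
    Real.exp (-Real.eulerMascheroniConstant) * Real.log (1 + 1 / ((j : ℝ) + 1))) := rfl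
  rw [this]
  have h2 : Lib.MP_493311_pr.E1 = expInt := rfl
  rw [h2]
  ring

lemma coef_eq {k : ℕ} (hk : 0 < k) (n : ℕ) : coef k n = Lib.MP_493311_pr.cf k n := by
  obtain ⟨m, rfl⟩ : ∃ m, k = m + 1 := ⟨k - 1, by omega⟩
  unfold coef Lib.MP_493311_pr.cf
  simp only [rho_eq]
  rfl

/-! ## The theorem -/

/-- **Complete asymptotic expansion of the mean shortest cycle length.**
* For every `K`: `E_n = e^{-γ} ln n + C + ∑_{k=1}^K c_k(n) n^{-k} + O(n^{-K-1})`.
* The series and the two integrals in the definition of `C` converge.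
* `c_k` is periodic in `n`, with period dividing every common multiple of `1, …, k`.
* For `k ≥ 2`, `|c_k(n)|` exceeds a positive constant for arbitrarily large `n`.
* `c_1(n) = 0` and `c_2(n) = (-1)^n/4 - e^{-γ}/96`. -/
theorem result :
    (∀ K : ℕ, ∃ M : ℝ, ∀ n : ℕ, 0 < n →
      |meanShortestCycle n - (Real.exp (-Real.eulerMascheroniConstant) * Real.log n + constTerm +
        ∑ k ∈ Icc 1 K, coef k n / (n : ℝ) ^ k)| ≤ M / (n : ℝ) ^ (K + 1)) ∧
    (Summable termD ∧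
      IntervalIntegrable (fun x : ℝ => Real.exp (expInt x) - 1 - Real.exp (-Real.eulerMascheroniConstant) / x) volume 0 1 ∧
      IntegrableOn (fun x : ℝ => Real.exp (expInt x) - 1) (Set.Ioi 1)) ∧
    (∀ k : ℕ, 0 < k → ∀ L : ℕ, (∀ a, 1 ≤ a → a ≤ k → a ∣ L) → ∀ n, coef k (n + L) = coef k n) ∧
    (∀ k : ℕ, 2 ≤ k → ∃ δ : ℝ, 0 < δ ∧ ∀ N, ∃ n, N ≤ n ∧ δ ≤ |coef k n|) ∧
    (∀ n, coef 1 n = 0) ∧
    (∀ n, coef 2 n = (-1) ^ n / 4 - Real.exp (-Real.eulerMascheroniConstant) / 96) := by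
  refine ⟨?_, ⟨?_, ?_, ?_⟩, ?_, ?_, ?_, ?_⟩
  · intro K
    obtain ⟨M, hM⟩ := Lib.MP_493311_pr.expansion K
    refine ⟨M, fun n hn => ?_⟩
    have h := hM n hn
    rw [mean_eq, const_eq]
    have h2 : ∑ k ∈ Icc 1 K, coef k n / (n : ℝ) ^ k =
        ∑ k ∈ Icc 1 K, Lib.MP_493311_pr.cf k n / (n : ℝ) ^ k := by
      apply sum_congr rfl
      intro k hk
      rw [coef_eq (mem_Icc.mp hk).1]
    rw [h2]
    exact h
  · exact Lib.MP_493311_pr.CD_summable
  · rw [intervalIntegrable_iff_integrableOn_Ioc_of_le zero_le_one]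
    exact Lib.MP_493311_pr.Vf_int
  · exact Lib.MP_493311_pr.Uf_int1
  · intro k hk L hL n
    rw [coef_eq hk, coef_eq hk]
    exact Lib.MP_493311_pr.cf_periodic hk (fun a h1 h2 => hL a (by omega) h2) n
  · intro k hk
    obtain ⟨δ, h1, h2⟩ := Lib.MP_493311_pr.cf_large hk
    refine ⟨δ, h1, fun N => ?_⟩
    obtain ⟨n, h3, h4⟩ := h2 N
    exact ⟨n, h3, by rwa [coef_eq (by omega)]⟩
  · intro n
    rw [coef_eq one_pos]
    exact Lib.MP_493311_pr.cf_one n
  · intro n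
    rw [coef_eq two_pos]
    exact Lib.MP_493311_pr.cf_two n

end Pool.Agent.Results.MP_493311_pr.FullExpansion
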